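import Mathlib
import Pool.Agent.H508R2.RK.Main

/-!
Equal disks in the unit disk with no line meeting more than `k` of them: a polynomial improvement
of the lower bound for `r_k(n)` when `k` is at least three.
-/

open Metric

namespace Pool.Agent.Results.MP_1780a9_co.DeletionBound

/-- The `n` closed disks of radius `r` with centres `x i` are contained in the closed unit disk and
every straight line `{p + t u}` meets at most `k` of them. -/
def IsConfig (k n : ℕ) (r : ℝ) (x : Fin n → EuclideanSpace ℝ (Fin 2)) : Prop :=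
  (∀ i, closedBall (x i) r ⊆ closedBall 0 1) ∧
  ∀ p u : EuclideanSpace ℝ (Fin 2), u ≠ 0 →
    Nat.card {i : Fin n // ∃ t : ℝ, p + t • u ∈ closedBall (x i) r} ≤ k

/-- `r_k(n)`: the supremum of the radii of such configurations. -/
noncomputable def rk (k n : ℕ) : ℝ := sSup {r : ℝ | 0 < r ∧ ∃ x, IsConfig k n r x}

/-- For every `k ≥ 2` there is `c > 0` with `r_k(n) ≥ c n^(-k/(k-1))` for all `n ≥ 1`. -/
theorem result (k : ℕ) (hk : 2 ≤ k) :
    ∃ c : ℝ, 0 < c ∧ ∀ n : ℕ, 1 ≤ n → c * (n : ℝ) ^ (-((k : ℝ) / ((k : ℝ) - 1))) ≤ rk k n :=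
  Pool.Agent.H508R2.RK.final k hk

end Pool.Agent.Results.MP_1780a9_co.DeletionBound
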